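import Pool.Agent.N89.BD.Stm

/-!
# Counting the supports of Frobenius-stable zero-cycles with given sum
-/

set_option autoImplicit false

namespace Pool.Agent.N346.BD.CZ

open Finset
open scoped Classical

variable {X 𝔾 : Type} [AddCommGroup 𝔾]

/-- the family of the supports -/
def Sp (B : ℕ) (F : X → X) (pt : X → 𝔾) (t : ℕ) (σ : 𝔾) : Set (Finset X) :=
  {Y : Finset X | Y.card = t ∧ (∀ x ∈ Y, F x ∈ Y) ∧ ∃ μ : X → ℕ,
    (∀ x ∈ Y, 1 ≤ μ x ∧ μ x ≤ B ∧ μ (F x) = μ x) ∧ ∑ x ∈ Y, μ x • pt x = σ}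

/-- the orbit -/
noncomputable def orb (F : X → X) (t : ℕ) (x : X) : Finset X := (range t).image fun i => F^[i] x

theorem iter_mem {F : X → X} {Y : Finset X} (hY : ∀ x ∈ Y, F x ∈ Y) {x : X} (hx : x ∈ Y) (i : ℕ) :
    F^[i] x ∈ Y := by
  induction i with
  | zero => exact hx
  | succ i ih => rw [Function.iterate_succ_apply']; exact hY _ ih

theorem exists_period {F : X → X} (hF : Function.Injective F) {Y : Finset X}
    (hY : ∀ x ∈ Y, F x ∈ Y) {x : X} (hx : x ∈ Y) :
    ∃ t, 1 ≤ t ∧ F^[t] x = x ∧ Set.InjOn (fun i => F^[i] x) (range t) := by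
  have hper : ∃ t, 1 ≤ t ∧ F^[t] x = x := by
    by_contra hcon
    push Not at hcon
    have hinj : Function.Injective fun i : ℕ => F^[i] x := by
      intro i j hij
      by_contra hne
      wlog hlt : i < j generalizing i j
      · exact this hij.symm (Ne.symm hne) (by omega)
      · have h1 : F^[i] (F^[j - i] x) = F^[i] x := by
          rw [← Function.iterate_add_apply, Nat.add_sub_cancel' hlt.le]
          exact hij.symm
        exact hcon (j - i) (by omega) (hF.iterate i h1)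
    have hfin : (Set.univ : Set ℕ).Finite := by
      refine Set.Finite.of_finite_image (f := fun i : ℕ => F^[i] x) ?_ hinj.injOn
      refine (Y.finite_toSet).subset ?_
      rintro _ ⟨i, -, rfl⟩
      exact iter_mem hY hx i
    exact Set.infinite_univ hfin
  classical
  refine ⟨Nat.find hper, (Nat.find_spec hper).1, (Nat.find_spec hper).2, ?_⟩
  intro i hi j hj hij
  simp only [coe_range, Set.mem_Iio] at hi hj
  by_contra hne
  wlog hlt : i < j generalizing i j
  · exact this hij.symm hj hi (Ne.symm hne) (by omega)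
  · have h1 : F^[i] (F^[j - i] x) = F^[i] x := by
      rw [← Function.iterate_add_apply, Nat.add_sub_cancel' hlt.le]
      exact hij.symm
    exact Nat.find_min hper (m := j - i) (by omega) ⟨by omega, hF.iterate i h1⟩

theorem orb_closed {F : X → X} {t : ℕ} (ht : 1 ≤ t) {x : X} (hx : F^[t] x = x) {y : X}
    (hF : Function.Injective F) : F y ∈ orb F t x ↔ y ∈ orb F t x := by
  unfold orb
  simp only [mem_image, mem_range]
  constructor
  · rintro ⟨i, hi, h⟩
    cases i with
    | zero =>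
      refine ⟨t - 1, by omega, hF ?_⟩
      rw [← Function.iterate_succ_apply' F, Nat.succ_eq_add_one, Nat.sub_add_cancel ht, hx]
      exact h
    | succ i =>
      refine ⟨i, by omega, hF ?_⟩
      rw [← Function.iterate_succ_apply' F]
      exact h
  · rintro ⟨i, hi, rfl⟩
    by_cases h : i + 1 < t
    · exact ⟨i + 1, h, Function.iterate_succ_apply' F i x⟩
    · refine ⟨0, by omega, ?_⟩
      rw [← Function.iterate_succ_apply' F]
      have : i.succ = t := by omega
      rw [this, hx]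
      rfl

theorem mu_const {F : X → X} {Y : Finset X} (hY : ∀ x ∈ Y, F x ∈ Y) {μ : X → ℕ}
    (hμ : ∀ x ∈ Y, μ (F x) = μ x) {x : X} (hx : x ∈ Y) (i : ℕ) : μ (F^[i] x) = μ x := by
  induction i with
  | zero => rfl
  | succ i ih => rw [Function.iterate_succ_apply', hμ _ (iter_mem hY hx i), ih]

theorem sum_orb {F : X → X} {t : ℕ} {x : X} (hinj : Set.InjOn (fun i => F^[i] x) (range t))
    (f : X → 𝔾) : ∑ y ∈ orb F t x, f y = ∑ i ∈ range t, f (F^[i] x) := by
  unfold orb
  rw [sum_image hinj]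

theorem cover {B t : ℕ} {F : X → X} {pt : X → 𝔾} {σ : 𝔾} (hF : Function.Injective F)
    (ht : 1 ≤ t) {Y : Finset X} (hY : Y ∈ Sp B F pt t σ) :
    (∃ m ∈ Icc 1 B, ∃ x : X, F^[t] x = x ∧ m • ∑ i ∈ range t, pt (F^[i] x) = σ ∧
      orb F t x = Y) ∨
    (∃ t1 ∈ Ico 1 t, ∃ m ∈ Icc 1 B, ∃ x : X, F^[t1] x = x ∧
      ∃ Y' ∈ Sp B F pt (t - t1) (σ - m • ∑ i ∈ range t1, pt (F^[i] x)), orb F t1 x ∪ Y' = Y) := by
  obtain ⟨hc, hst, μ, hμ, hs⟩ := hY
  have hne : Y.Nonempty := by
    rw [← card_pos]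
    omega
  obtain ⟨x, hx⟩ := hne
  obtain ⟨t1, ht1, hper, hinj⟩ := exists_period hF hst hx
  have hsub : orb F t1 x ⊆ Y := by
    intro y hy
    obtain ⟨i, -, rfl⟩ := mem_image.1 hy
    exact iter_mem hst hx i
  have hcard : (orb F t1 x).card = t1 := by
    unfold orb
    rw [card_image_of_injOn hinj, card_range]
  have hle : t1 ≤ t := by
    rw [← hcard, ← hc]
    exact card_le_card hsub
  have hμc := mu_const hst (fun y hy => (hμ y hy).2.2) hx
  have hm : μ x ∈ Icc 1 B := mem_Icc.2 ⟨(hμ x hx).1, (hμ x hx).2.1⟩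
  have hso : ∑ y ∈ orb F t1 x, μ y • pt y = μ x • ∑ i ∈ range t1, pt (F^[i] x) := by
    rw [sum_orb hinj, smul_sum]
    exact sum_congr rfl fun i _ => by rw [hμc i]
  rcases hle.lt_or_eq with hlt | heq
  · right
    refine ⟨t1, mem_Ico.2 ⟨ht1, hlt⟩, μ x, hm, x, hper, Y \ orb F t1 x, ⟨?_, ?_, μ, ?_, ?_⟩, ?_⟩
    · rw [card_sdiff_of_subset hsub, hcard, hc]
    · intro y hy
      rw [mem_sdiff] at hy ⊢
      exact ⟨hst y hy.1, fun h => hy.2 ((orb_closed ht1 hper hF).1 h)⟩
    · intro y hy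
      exact hμ y (mem_sdiff.1 hy).1
    · rw [← hso, ← hs, eq_sub_iff_add_eq, sum_sdiff hsub]
    · exact union_sdiff_of_subset hsub
  · left
    subst heq
    have hYO : orb F t1 x = Y := eq_of_subset_of_card_le hsub (by rw [hcard, hc])
    refine ⟨μ x, hm, x, hper, ?_, hYO⟩
    rw [← hso, hYO, hs]

theorem geom (D t : ℕ) (ht : 1 ≤ t) :
    D + ∑ t1 ∈ Ico 1 t, D * (1 + D) ^ (t - t1) ≤ (1 + D) ^ t := by
  have h : ∀ s : ℕ, D + ∑ t1 ∈ Ico 1 (s + 1), D * (1 + D) ^ (s + 1 - t1) + 1 ≤ (1 + D) ^ (s + 1) := by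
    intro s
    induction s with
    | zero => simp
    | succ s ih =>
      have h1 : ∑ t1 ∈ Ico 1 (s + 1 + 1), D * (1 + D) ^ (s + 1 + 1 - t1) =
          (1 + D) * ∑ t1 ∈ Ico 1 (s + 1), D * (1 + D) ^ (s + 1 - t1) + D * (1 + D) := by
        rw [sum_Ico_succ_top (by omega), mul_sum]
        congr 1
        · refine sum_congr rfl fun i hi => ?_
          rw [mem_Ico] at hi
          have : s + 1 + 1 - i = (s + 1 - i) + 1 := by omega
          rw [this, pow_succ]
          ring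
        · simp
      rw [h1, pow_succ]
      nlinarith
  obtain ⟨s, rfl⟩ : ∃ s, t = s + 1 := ⟨t - 1, by omega⟩
  exact le_trans (Nat.le_add_right _ 1) (h s)

theorem main : Pool.Agent.N89.BD.S_CZ := by
  intro B A e g
  refine ⟨(1 + B * A) ^ B, ?_⟩
  intro q X 𝔾 _ F pt hq _ hF h1 h2
  have key : ∀ t, 1 ≤ t → t ≤ B → ∀ σ : 𝔾, (Sp B F pt t σ).Finite ∧
      (Sp B F pt t σ).ncard * q ^ g ≤ (1 + B * A) ^ t * q ^ (e * t) := by
    intro t
    induction t using Nat.strong_induction_on with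
    | _ t ih =>
    intro ht htB σ
    -- the finite sets
    let P : ℕ → Finset X := fun t1 =>
      if h : 1 ≤ t1 ∧ t1 ≤ B then (h1 t1 h.1 h.2).1.toFinset else ∅
    have hP : ∀ t1, 1 ≤ t1 → t1 ≤ B → ∀ x, x ∈ P t1 ↔ F^[t1] x = x := by
      intro t1 a b x
      simp only [P, a, b, and_self, dite_true, Set.Finite.mem_toFinset, Set.mem_ofPred_eq]
    have hPc : ∀ t1, 1 ≤ t1 → t1 ≤ B → (P t1).card ≤ A * q ^ (e * t1) := by
      intro t1 a b
      have := (h1 t1 a b).2
      rw [Set.ncard_eq_toFinset_card _ (h1 t1 a b).1] at this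
      simpa only [P, a, b, and_self, dite_true] using this
    let Q : ℕ → Finset X := fun m =>
      (P t).filter fun x => m • ∑ i ∈ range t, pt (F^[i] x) = σ
    have hQc : ∀ m ∈ Icc 1 B, (Q m).card * q ^ g ≤ A * q ^ (e * t) := by
      intro m hm
      rw [mem_Icc] at hm
      have h := h2 t m ht htB hm.1 hm.2 σ
      have hset : {x : X | F^[t] x = x ∧ m • ∑ i ∈ Finset.range t, pt (F^[i] x) = σ} =
          ((Q m : Finset X) : Set X) := by
        ext x
        simp only [Set.mem_ofPred_eq, coe_filter, Q, hP t ht htB x]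
      rw [hset, Set.ncard_coe_finset] at h
      exact h
    let S : ℕ → 𝔾 → Finset (Finset X) := fun t1 σ' =>
      if h : 1 ≤ t1 ∧ t1 < t then
        (ih (t - t1) (by omega) (by omega) (by omega) σ').1.toFinset else ∅
    have hS : ∀ t1, 1 ≤ t1 → t1 < t → ∀ σ' Y, Y ∈ S t1 σ' ↔ Y ∈ Sp B F pt (t - t1) σ' := by
      intro t1 a b σ' Y
      simp only [S, a, b, and_self, dite_true, Set.Finite.mem_toFinset]
    have hSc : ∀ t1, 1 ≤ t1 → t1 < t → ∀ σ', (S t1 σ').card * q ^ g ≤
        (1 + B * A) ^ (t - t1) * q ^ (e * (t - t1)) := by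
      intro t1 a b σ'
      have := (ih (t - t1) (by omega) (by omega) (by omega) σ').2
      rw [Set.ncard_eq_toFinset_card _ (ih (t - t1) (by omega) (by omega) (by omega) σ').1] at this
      simpa only [S, a, b, and_self, dite_true] using this
    let V1 : Finset (Finset X) := (Icc 1 B).biUnion fun m => (Q m).image (orb F t)
    let V2 : Finset (Finset X) := (Ico 1 t).biUnion fun t1 => (Icc 1 B).biUnion fun m =>
      (P t1).biUnion fun x => (S t1 (σ - m • ∑ i ∈ range t1, pt (F^[i] x))).image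
        fun Y' => orb F t1 x ∪ Y'
    have hcov : Sp B F pt t σ ⊆ ((V1 ∪ V2 : Finset (Finset X)) : Set (Finset X)) := by
      intro Y hY
      rw [mem_coe, mem_union]
      rcases cover hF ht hY with ⟨m, hm, x, hx1, hx2, hx3⟩ |
        ⟨t1, ht1, m, hm, x, hx, Y', hY', hY2⟩
      · left
        simp only [V1, mem_biUnion, mem_image]
        exact ⟨m, hm, x, mem_filter.2 ⟨(hP t ht htB x).2 hx1, hx2⟩, hx3⟩
      · right
        have ht1' := mem_Ico.1 ht1
        simp only [V2, mem_biUnion, mem_image]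
        exact ⟨t1, ht1, m, hm, x, (hP t1 ht1'.1 (by omega) x).2 hx, Y',
          (hS t1 ht1'.1 ht1'.2 _ _).2 hY', hY2⟩
    refine ⟨(finite_toSet _).subset hcov, ?_⟩
    have hn : (Sp B F pt t σ).ncard ≤ V1.card + V2.card := by
      have := Set.ncard_le_ncard hcov (finite_toSet _)
      rw [Set.ncard_coe_finset] at this
      exact this.trans (card_union_le _ _)
    have hV1 : V1.card * q ^ g ≤ B * A * q ^ (e * t) := by
      calc V1.card * q ^ g ≤ (∑ m ∈ Icc 1 B, (Q m).card) * q ^ g := by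
            refine Nat.mul_le_mul_right _ (card_biUnion_le.trans (sum_le_sum fun m _ => card_image_le))
        _ = ∑ m ∈ Icc 1 B, (Q m).card * q ^ g := sum_mul _ _ _
        _ ≤ ∑ _m ∈ Icc 1 B, A * q ^ (e * t) := sum_le_sum hQc
        _ = _ := by
            rw [sum_const, Nat.card_Icc, smul_eq_mul, Nat.add_sub_cancel]
            ring
    have hV2 : V2.card * q ^ g ≤
        (∑ t1 ∈ Ico 1 t, B * A * (1 + B * A) ^ (t - t1)) * q ^ (e * t) := by
      have hb : V2.card ≤ ∑ t1 ∈ Ico 1 t, ∑ m ∈ Icc 1 B, ∑ x ∈ P t1,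
          (S t1 (σ - m • ∑ i ∈ range t1, pt (F^[i] x))).card := by
        refine card_biUnion_le.trans (sum_le_sum fun t1 _ => ?_)
        refine card_biUnion_le.trans (sum_le_sum fun m _ => ?_)
        exact card_biUnion_le.trans (sum_le_sum fun x _ => card_image_le)
      refine (Nat.mul_le_mul_right _ hb).trans ?_
      rw [sum_mul, sum_mul]
      refine sum_le_sum fun t1 ht1 => ?_
      rw [mem_Ico] at ht1
      calc (∑ m ∈ Icc 1 B, ∑ x ∈ P t1,
            (S t1 (σ - m • ∑ i ∈ range t1, pt (F^[i] x))).card) * q ^ g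
          = ∑ m ∈ Icc 1 B, ∑ x ∈ P t1,
            (S t1 (σ - m • ∑ i ∈ range t1, pt (F^[i] x))).card * q ^ g := by
            rw [sum_mul]
            exact sum_congr rfl fun m _ => sum_mul _ _ _
        _ ≤ ∑ _m ∈ Icc 1 B, ∑ _x ∈ P t1, (1 + B * A) ^ (t - t1) * q ^ (e * (t - t1)) :=
            sum_le_sum fun m _ => sum_le_sum fun x _ => hSc t1 ht1.1 ht1.2 _
        _ = B * ((P t1).card * ((1 + B * A) ^ (t - t1) * q ^ (e * (t - t1)))) := by
            rw [sum_const, sum_const, Nat.card_Icc, Nat.add_sub_cancel, smul_eq_mul, smul_eq_mul]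
        _ ≤ B * ((A * q ^ (e * t1)) * ((1 + B * A) ^ (t - t1) * q ^ (e * (t - t1)))) :=
            Nat.mul_le_mul_left _ (Nat.mul_le_mul_right _ (hPc t1 ht1.1 (by omega)))
        _ = B * A * (1 + B * A) ^ (t - t1) * (q ^ (e * t1) * q ^ (e * (t - t1))) := by ring
        _ = B * A * (1 + B * A) ^ (t - t1) * q ^ (e * t) := by
            rw [← pow_add, ← mul_add, Nat.add_sub_cancel' ht1.2.le]
    calc (Sp B F pt t σ).ncard * q ^ g ≤ (V1.card + V2.card) * q ^ g :=
          Nat.mul_le_mul_right _ hn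
      _ = V1.card * q ^ g + V2.card * q ^ g := add_mul _ _ _
      _ ≤ B * A * q ^ (e * t) +
          (∑ t1 ∈ Ico 1 t, B * A * (1 + B * A) ^ (t - t1)) * q ^ (e * t) := add_le_add hV1 hV2
      _ = (B * A + ∑ t1 ∈ Ico 1 t, B * A * (1 + B * A) ^ (t - t1)) * q ^ (e * t) := by ring
      _ ≤ (1 + B * A) ^ t * q ^ (e * t) := Nat.mul_le_mul_right _ (geom (B * A) t ht)
  intro t ht htB σ
  obtain ⟨k1, k2⟩ := key t ht htB σ
  refine ⟨k1, k2.trans (Nat.mul_le_mul_right _ (Nat.pow_le_pow_right (by omega) htB))⟩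

end Pool.Agent.N346.BD.CZ
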